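import Mathlib
import Pool.Agent.Helper961.Aub.ZFinal

/-!
# Chain recurrent points which are in the Aubry set of no Riemannian metric

On every torus of dimension `n ≥ 29` there is a smooth vector field `f` with a chain recurrent
point that belongs to the Aubry set of `½ ‖v - f(x)‖²` for NO Riemannian metric of the torus.
-/

set_option autoImplicit false
set_option linter.unusedSectionVars false

open Set Filter Topology MeasureTheory

namespace Pool.Agent.Results.MP_3afe9c_an.NoMetricEveryDimension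

noncomputable section

variable {ι : Type} [Fintype ι]

/-- the projection of `ℝ^ι` onto the torus `(ℝ/Lℤ)^ι` -/
def proj (L : ℝ) (u : EuclideanSpace ℝ ι) : ι → AddCircle L :=
  fun i => ((u i : ℝ) : AddCircle L)

/-- a vector field `f` on the torus is smooth -/
def SmoothField (L : ℝ) (f : (ι → AddCircle L) → EuclideanSpace ℝ ι) : Prop :=
  ContDiff ℝ ((⊤ : ℕ∞) : WithTop ℕ∞) (fun u => f (proj L u))

/-- `φ` is the flow of `f`: `t ↦ φ t x` is continuous and
`φ t x = x + ∫_0^t f(φ s x) ds` -/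
def IsFlow (L : ℝ) (f : (ι → AddCircle L) → EuclideanSpace ℝ ι)
    (φ : ℝ → (ι → AddCircle L) → (ι → AddCircle L)) : Prop :=
  ∀ x, Continuous (fun t => φ t x) ∧
    ∀ t, φ t x = x + proj L (∫ s in (0 : ℝ)..t, f (φ s x))

/-- `γ` is an absolutely continuous curve on `[0, T]` in the torus with velocity `v`:
`v` is integrable and `γ(s) = γ(0) + ∫_0^s v` -/
def IsCurve (L : ℝ) (γ : ℝ → (ι → AddCircle L)) (v : ℝ → EuclideanSpace ℝ ι) (T : ℝ) : Prop :=
  IntegrableOn v (Icc 0 T) ∧
    ∀ s ∈ Icc (0 : ℝ) T, γ s = γ 0 + proj L (∫ u in (0 : ℝ)..s, v u)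

/-- the action `∫_0^T ½ ‖γ' - f(γ)‖²` -/
def action (L : ℝ) (f : (ι → AddCircle L) → EuclideanSpace ℝ ι) (γ : ℝ → (ι → AddCircle L))
    (v : ℝ → EuclideanSpace ℝ ι) (T : ℝ) : ENNReal :=
  ∫⁻ s in Icc (0 : ℝ) T, ENNReal.ofReal (‖v s - f (γ s)‖ ^ 2 / 2)

/-- `h_T(x, y)`, the infimum of the action of the curves from `x` to `y` in time `T` -/
def hT (L : ℝ) (f : (ι → AddCircle L) → EuclideanSpace ℝ ι) (T : ℝ)
    (x y : ι → AddCircle L) : ENNReal :=
  ⨅ (γ : ℝ → (ι → AddCircle L)) (v : ℝ → EuclideanSpace ℝ ι) (_ : IsCurve L γ v T)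
    (_ : γ 0 = x) (_ : γ T = y), action L f γ v T

/-- the Peierls barrier `h(x, y) = liminf_{T → ∞} h_T(x, y)` -/
def barrier (L : ℝ) (f : (ι → AddCircle L) → EuclideanSpace ℝ ι)
    (x y : ι → AddCircle L) : ENNReal :=
  liminf (fun T : ℝ => hT L f T x y) atTop

/-- the Aubry set `A_0 = {x : h(x, x) = 0}` -/
def AubrySet (L : ℝ) (f : (ι → AddCircle L) → EuclideanSpace ℝ ι) :
    Set (ι → AddCircle L) := {x | barrier L f x x = 0}

/-- the flat Riemannian distance of `x` and `y` is smaller than `ε` -/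
def near (L ε : ℝ) (x y : ι → AddCircle L) : Prop :=
  ∃ u : EuclideanSpace ℝ ι, ‖u‖ < ε ∧ y = x + proj L u

/-- one step of an `(ε, T)`-chain: `d(φ^t(a), b) < ε` for some `t ≥ T` -/
def chstep (L : ℝ) (φ : ℝ → (ι → AddCircle L) → (ι → AddCircle L)) (ε T : ℝ)
    (a b : ι → AddCircle L) : Prop := ∃ t, T ≤ t ∧ near L ε (φ t a) b

/-- `x` is chain recurrent: for all `ε, T > 0` there is an `(ε, T)`-chain
`x = x_0, x_1, ..., x_k = x`, `k ≥ 1` -/
def ChainRec (L : ℝ) (φ : ℝ → (ι → AddCircle L) → (ι → AddCircle L))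
    (x : ι → AddCircle L) : Prop :=
  ∀ ε > 0, ∀ T > 0, Relation.TransGen (chstep L φ ε T) x x

/-- a (continuous) Riemannian metric of the torus `(ℝ/Lℤ)^ι`: for every point `q` a symmetric
positive definite bilinear form `G q` on the tangent space `ℝ^ι`, jointly continuous -/
def IsMetric (L : ℝ)
    (G : (ι → AddCircle L) → EuclideanSpace ℝ ι → EuclideanSpace ℝ ι → ℝ) : Prop :=
  Continuous (fun p : (ι → AddCircle L) × EuclideanSpace ℝ ι × EuclideanSpace ℝ ι =>
    G p.1 p.2.1 p.2.2) ∧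
  (∀ q v w, G q v w = G q w v) ∧ (∀ q u v w, G q (u + v) w = G q u w + G q v w) ∧
  (∀ q (c : ℝ) v w, G q (c • v) w = c * G q v w) ∧ ∀ q v, v ≠ 0 → 0 < G q v v

/-- the action `∫_0^T ½ ‖γ' - f(γ)‖²` for the metric `G` -/
def actionG (L : ℝ) (G : (ι → AddCircle L) → EuclideanSpace ℝ ι → EuclideanSpace ℝ ι → ℝ)
    (f : (ι → AddCircle L) → EuclideanSpace ℝ ι) (γ : ℝ → (ι → AddCircle L))
    (v : ℝ → EuclideanSpace ℝ ι) (T : ℝ) : ENNReal :=
  ∫⁻ s in Icc (0 : ℝ) T, ENNReal.ofReal (G (γ s) (v s - f (γ s)) (v s - f (γ s)) / 2)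

/-- `h_T(x, y)` for the metric `G`: the infimum of the action of the curves from `x` to `y` in
time `T` -/
def hTG (L : ℝ) (G : (ι → AddCircle L) → EuclideanSpace ℝ ι → EuclideanSpace ℝ ι → ℝ)
    (f : (ι → AddCircle L) → EuclideanSpace ℝ ι) (T : ℝ)
    (x y : ι → AddCircle L) : ENNReal :=
  ⨅ (γ : ℝ → (ι → AddCircle L)) (v : ℝ → EuclideanSpace ℝ ι) (_ : IsCurve L γ v T)
    (_ : γ 0 = x) (_ : γ T = y), actionG L G f γ v T

/-- the Peierls barrier for the metric `G` -/
def barrierG (L : ℝ) (G : (ι → AddCircle L) → EuclideanSpace ℝ ι → EuclideanSpace ℝ ι → ℝ)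
    (f : (ι → AddCircle L) → EuclideanSpace ℝ ι) (x y : ι → AddCircle L) : ENNReal :=
  liminf (fun T : ℝ => hTG L G f T x y) atTop

/-- the Aubry set `A_0 = {x : h(x, x) = 0}` of `½ ‖v - f(x)‖²` for the metric `G` -/
def AubrySetG (L : ℝ) (G : (ι → AddCircle L) → EuclideanSpace ℝ ι → EuclideanSpace ℝ ι → ℝ)
    (f : (ι → AddCircle L) → EuclideanSpace ℝ ι) :
    Set (ι → AddCircle L) := {x | barrierG L G f x x = 0}

theorem proj_add (L : ℝ) (u v : EuclideanSpace ℝ ι) :
    proj L (u + v) = proj L u + proj L v := by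
  funext i
  simp [proj]

theorem proj_surj (L : ℝ) : Function.Surjective (proj L : EuclideanSpace ℝ ι → _) := by
  intro q
  choose u hu using fun i => QuotientAddGroup.mk_surjective (q i)
  refine ⟨WithLp.toLp 2 u, ?_⟩
  funext i
  simpa [proj] using hu i

theorem proj_lat (L : ℝ) (k : ι → ℤ) : proj L (Pool.Agent.Aub.lat L k) = 0 := by
  funext i
  simp only [proj, Pool.Agent.Aub.lat, Pi.zero_apply]
  rw [AddCircle.coe_eq_zero_iff]
  exact ⟨k i, by simp [mul_comm]⟩

theorem proj_eq {L : ℝ} {u v : EuclideanSpace ℝ ι} (h : proj L u = proj L v) :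
    ∃ k : ι → ℤ, u = v + Pool.Agent.Aub.lat L k := by
  have h1 : ∀ i, ∃ n : ℤ, n • L = u i - v i := by
    intro i
    have h2 := congrFun h i
    simp only [proj] at h2
    rw [← sub_eq_zero, ← AddCircle.coe_sub, AddCircle.coe_eq_zero_iff] at h2
    exact h2
  choose k hk using h1
  refine ⟨k, ?_⟩
  ext i
  have := hk i
  simp only [Pool.Agent.Aub.lat, PiLp.add_apply, zsmul_eq_mul] at this ⊢
  rw [mul_comm, this]
  ring

theorem proj_cont (L : ℝ) : Continuous (proj L : EuclideanSpace ℝ ι → _) := by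
  refine continuous_pi fun i => ?_
  exact (AddCircle.continuous_mk' L).comp (by fun_prop)

/-- The example for the flat metric in dimension `29` (the starting result). -/
theorem base : ∃ (L : ℝ)
    (f : (Pool.Agent.Aub.Jx → AddCircle L) → EuclideanSpace ℝ Pool.Agent.Aub.Jx)
    (φ : ℝ → (Pool.Agent.Aub.Jx → AddCircle L) → (Pool.Agent.Aub.Jx → AddCircle L)),
    0 < L ∧ SmoothField L f ∧ IsFlow L f φ ∧ ∃ x, ChainRec L φ x ∧ x ∉ AubrySet L f := by
  obtain ⟨F, Φ, hs, hp, hf, x, hx, hA⟩ := Pool.Agent.Aub.final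
  have hL : (0 : ℝ) < Pool.Agent.Aub.LL := by unfold Pool.Agent.Aub.LL; positivity
  obtain ⟨K, B, _, _, hK, _, hg, heq, hlip⟩ := Pool.Agent.Aub.flow_facts hL hs hp hf
  set L := Pool.Agent.Aub.LL with hLdef
  obtain ⟨lift, hlift⟩ : ∃ lift : (Pool.Agent.Aub.Jx → AddCircle L) → EuclideanSpace ℝ Pool.Agent.Aub.Jx,
      ∀ q, proj L (lift q) = q :=
    ⟨Function.surjInv (proj_surj L), Function.surjInv_eq (proj_surj L)⟩
  set f : (Pool.Agent.Aub.Jx → AddCircle L) → EuclideanSpace ℝ Pool.Agent.Aub.Jx := fun q => F (lift q) with hfdef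
  set φ : ℝ → (Pool.Agent.Aub.Jx → AddCircle L) → (Pool.Agent.Aub.Jx → AddCircle L) :=
    fun t q => proj L (Φ t (lift q)) with hφdef
  have hfp : ∀ u, f (proj L u) = F u := by
    intro u
    obtain ⟨k, hk⟩ := proj_eq (hlift (proj L u))
    simp only [hfdef]
    rw [hk, hp]
  have hφp : ∀ t u, φ t (proj L u) = proj L (Φ t u) := by
    intro t u
    obtain ⟨k, hk⟩ := proj_eq (hlift (proj L u))
    simp only [hφdef]
    rw [hk, heq, proj_add, proj_lat, add_zero]
  have hFc : Continuous F := hs.continuous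
  refine ⟨L, f, φ, hL, ?_, ?_, proj L x, ?_, ?_⟩
  · unfold SmoothField
    simpa only [hfp] using hs
  · intro q
    obtain ⟨u, rfl⟩ := proj_surj L q
    have hc : Continuous fun t => Φ t u :=
      continuous_iff_continuousAt.2 fun t => (hf.2 u t).continuousAt
    refine ⟨?_, ?_⟩
    · simp only [hφp]
      exact (proj_cont L).comp hc
    · intro t
      simp only [hφp, hfp]
      have h1 : ∫ s in (0 : ℝ)..t, F (Φ s u) = Φ t u - Φ 0 u :=
        intervalIntegral.integral_eq_sub_of_hasDerivAt (fun s _ => hf.2 u s)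
          ((hFc.comp hc).intervalIntegrable _ _)
      rw [h1, ← proj_add, hf.1 u]
      congr 1
      abel
  · intro ε hε T hT0
    have h1 := hx ε hε T hT0
    have h2 : ∀ a b, Pool.Agent.Aub.chstep L Φ ε T a b → chstep L φ ε T (proj L a) (proj L b) := by
      rintro a b ⟨t, ht, k, hk⟩
      refine ⟨t, ht, -(Φ t a - b - Pool.Agent.Aub.lat L k), by rwa [norm_neg], ?_⟩
      rw [hφp, ← proj_add]
      have : Φ t a + -(Φ t a - b - Pool.Agent.Aub.lat L k) = b + Pool.Agent.Aub.lat L k := by abel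
      rw [this, proj_add, proj_lat, add_zero]
    exact h1.lift (proj L) h2
  · intro hmem
    apply hA
    change Pool.Agent.Aub.barrier L F x x = 0
    have h0 : barrier L f (proj L x) (proj L x) = 0 := hmem
    refine le_antisymm ?_ bot_le
    rw [← h0]
    unfold barrier Pool.Agent.Aub.barrier
    refine liminf_le_liminf ?_
    filter_upwards [eventually_ge_atTop (0 : ℝ)] with T hT0
    unfold hT Pool.Agent.Aub.hT
    refine le_iInf fun γ => le_iInf fun v => le_iInf fun hc => le_iInf fun h0 =>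
      le_iInf fun h1 => ?_
    set γ' : ℝ → EuclideanSpace ℝ Pool.Agent.Aub.Jx := fun s => x + ∫ u in (0 : ℝ)..s, v u with hγ'
    have hγ0 : γ' 0 = x := by simp [hγ']
    have hγs : ∀ s ∈ Icc (0 : ℝ) T, proj L (γ' s) = γ s := by
      intro s hs'
      rw [hc.2 s hs', h0, hγ', proj_add]
    have hcur : Pool.Agent.Aub.IsCurve γ' v T := by
      refine ⟨hc.1, fun s _ => ?_⟩
      rw [hγ0]
    have hend : ∃ k : Pool.Agent.Aub.Jx → ℤ, γ' T = x + Pool.Agent.Aub.lat L k := by
      apply proj_eq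
      rw [hγs T ⟨hT0, le_rfl⟩, h1]
    have hact : Pool.Agent.Aub.action F γ' v T = action L f γ v T := by
      unfold Pool.Agent.Aub.action action
      refine setLIntegral_congr_fun measurableSet_Icc ?_
      intro s hs'
      simp only
      rw [← hγs s hs', hfp]
    rw [← hact]
    exact iInf_le_of_le γ' (iInf_le_of_le v (iInf_le_of_le hcur (iInf_le_of_le hγ0
      (iInf_le_of_le hend le_rfl))))


section ext

variable {κ : Type} [Fintype κ] (j : ι ↪ κ)

/-- restriction of coordinates -/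
def rs : EuclideanSpace ℝ κ →ₗ[ℝ] EuclideanSpace ℝ ι where
  toFun u := WithLp.toLp 2 (fun i => u (j i))
  map_add' u v := by ext i; simp
  map_smul' c u := by ext i; simp

open Classical in
/-- extension by zero -/
def ex : EuclideanSpace ℝ ι →ₗ[ℝ] EuclideanSpace ℝ κ where
  toFun u := WithLp.toLp 2 (fun k => if h : ∃ i, j i = k then u h.choose else 0)
  map_add' u v := by
    ext k
    by_cases h : ∃ i, j i = k <;> simp [h]
  map_smul' c u := by
    ext k
    by_cases h : ∃ i, j i = k <;> simp [h]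

theorem rs_apply (u : EuclideanSpace ℝ κ) (i : ι) : rs j u i = u (j i) := rfl

open Classical in
theorem ex_apply (u : EuclideanSpace ℝ ι) (i : ι) : ex j u (j i) = u i := by
  have h : ∃ i', j i' = j i := ⟨i, rfl⟩
  change (if h : ∃ i', j i' = j i then u h.choose else 0) = u i
  rw [dif_pos h, j.injective h.choose_spec]

open Classical in
theorem ex_apply' (u : EuclideanSpace ℝ ι) {k : κ} (hk : ¬ ∃ i, j i = k) : ex j u k = 0 := by
  change (if h : ∃ i', j i' = k then u h.choose else 0) = 0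
  rw [dif_neg hk]

theorem rs_ex (u : EuclideanSpace ℝ ι) : rs j (ex j u) = u := by
  ext i
  rw [rs_apply, ex_apply]

theorem norm_rs_le (u : EuclideanSpace ℝ κ) : ‖rs j u‖ ≤ ‖u‖ := by
  rw [EuclideanSpace.norm_eq, EuclideanSpace.norm_eq]
  refine Real.sqrt_le_sqrt ?_
  have h : ∑ i, ‖rs j u i‖ ^ 2 = ∑ k ∈ Finset.univ.map j, ‖u k‖ ^ 2 := by
    rw [Finset.sum_map]
    rfl
  rw [h]
  exact Finset.sum_le_sum_of_subset_of_nonneg (Finset.subset_univ _) fun _ _ _ => by positivity

theorem norm_ex (u : EuclideanSpace ℝ ι) : ‖ex j u‖ = ‖u‖ := by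
  rw [EuclideanSpace.norm_eq, EuclideanSpace.norm_eq]
  congr 1
  have h : ∑ i, ‖u i‖ ^ 2 = ∑ k ∈ Finset.univ.map j, ‖ex j u k‖ ^ 2 := by
    rw [Finset.sum_map]
    refine Finset.sum_congr rfl fun i _ => ?_
    rw [ex_apply]
  rw [h]
  refine (Finset.sum_subset (Finset.subset_univ _) fun k _ hk => ?_).symm
  rw [ex_apply', norm_zero]
  · norm_num
  · rintro ⟨i, rfl⟩
    exact hk (Finset.mem_map_of_mem _ (Finset.mem_univ i))

/-- extension as an isometry -/
def exi : EuclideanSpace ℝ ι →ₗᵢ[ℝ] EuclideanSpace ℝ κ := ⟨ex j, norm_ex j⟩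

/-- restriction as a continuous linear map -/
def rsc : EuclideanSpace ℝ κ →L[ℝ] EuclideanSpace ℝ ι := (rs j).mkContinuous 1 fun u => by
  rw [one_mul]; exact norm_rs_le j u

theorem proj_rs (L : ℝ) (u : EuclideanSpace ℝ κ) : proj L (rs j u) = proj L u ∘ j := rfl

open Classical in
/-- glue a point of the small torus into a point of the large one -/
def gl {A : Type} (a : ι → A) (q : κ → A) : κ → A :=
  fun k => if h : ∃ i, j i = k then a h.choose else q k

open Classical in
theorem gl_apply {A : Type} (a : ι → A) (q : κ → A) (i : ι) : gl j a q (j i) = a i := by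
  have h : ∃ i', j i' = j i := ⟨i, rfl⟩
  change (if h : ∃ i', j i' = j i then a h.choose else q (j i)) = a i
  rw [dif_pos h, j.injective h.choose_spec]

open Classical in
theorem gl_apply' {A : Type} (a : ι → A) (q : κ → A) {k : κ} (hk : ¬ ∃ i, j i = k) :
    gl j a q k = q k := by
  change (if h : ∃ i', j i' = k then a h.choose else q k) = q k
  rw [dif_neg hk]

theorem gl_comp {A : Type} (a : ι → A) (q : κ → A) : gl j a q ∘ j = a := by
  funext i
  exact gl_apply j a q i

theorem gl_add_proj (L : ℝ) (a : ι → AddCircle L) (q : κ → AddCircle L)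
    (u : EuclideanSpace ℝ ι) : gl j (a + proj L u) q = gl j a q + proj L (ex j u) := by
  funext k
  by_cases hk : ∃ i, j i = k
  · obtain ⟨i, rfl⟩ := hk
    rw [gl_apply, Pi.add_apply, Pi.add_apply, gl_apply]
    simp only [proj]
    rw [ex_apply]
  · rw [gl_apply' j _ _ hk, Pi.add_apply, gl_apply' j _ _ hk]
    simp only [proj]
    rw [ex_apply' j _ hk]
    simp

theorem gl_self {A : Type} (q : κ → A) : gl j (q ∘ j) q = q := by
  funext k
  by_cases hk : ∃ i, j i = k
  · obtain ⟨i, rfl⟩ := hk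
    rw [gl_apply]
    rfl
  · rw [gl_apply' j _ _ hk]

end ext

/-- A metric of a compact torus is bounded below by a multiple of the flat one. -/
theorem metric_ge {L : ℝ} (hL : 0 < L)
    {G : (ι → AddCircle L) → EuclideanSpace ℝ ι → EuclideanSpace ℝ ι → ℝ} (hG : IsMetric L G) :
    ∃ c : ℝ, 0 < c ∧ ∀ q v, c * ‖v‖ ^ 2 ≤ G q v v := by
  have : Fact (0 < L) := ⟨hL⟩
  obtain ⟨hG1, hG2, _, hG4, hG3⟩ := hG
  let S : Set ((ι → AddCircle L) × EuclideanSpace ℝ ι) := univ ×ˢ Metric.sphere 0 1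
  have hS : IsCompact S := isCompact_univ.prod (isCompact_sphere _ _)
  have hcont : Continuous fun p : (ι → AddCircle L) × EuclideanSpace ℝ ι => G p.1 p.2 p.2 :=
    hG1.comp (continuous_fst.prodMk (continuous_snd.prodMk continuous_snd))
  have hex : ∃ c : ℝ, 0 < c ∧ ∀ p ∈ S, c ≤ G p.1 p.2 p.2 := by
    rcases S.eq_empty_or_nonempty with h0 | h0
    · exact ⟨1, one_pos, fun p hp => by rw [h0] at hp; exact absurd hp (by simp)⟩
    · obtain ⟨p, hp, hmin⟩ := hS.exists_isMinOn h0 hcont.continuousOn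
      refine ⟨G p.1 p.2 p.2, hG3 _ _ ?_, fun p' hp' => hmin hp'⟩
      have h1 : ‖p.2‖ = 1 := by simpa using hp.2
      intro h2
      rw [h2, norm_zero] at h1
      exact zero_ne_one h1
  obtain ⟨c, hc, hmin⟩ := hex
  refine ⟨c, hc, fun q v => ?_⟩
  by_cases hv : v = 0
  · subst hv
    have h0 := hG4 q 0 0 0
    rw [zero_smul, zero_mul] at h0
    rw [norm_zero, h0]
    norm_num
  · have hn : 0 < ‖v‖ := norm_pos_iff.2 hv
    have h1 := hmin (q, ‖v‖⁻¹ • v) ⟨mem_univ _, by
      simp only [mem_sphere_iff_norm, sub_zero]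
      rw [norm_smul, norm_inv, norm_norm, inv_mul_cancel₀ hn.ne']⟩
    have h2 : G q (‖v‖⁻¹ • v) (‖v‖⁻¹ • v) = ‖v‖⁻¹ ^ 2 * G q v v := by
      rw [hG4, hG2, hG4]
      ring
    have h3 : c ≤ ‖v‖⁻¹ ^ 2 * G q v v := by
      rw [← h2]
      exact h1
    calc c * ‖v‖ ^ 2 ≤ (‖v‖⁻¹ ^ 2 * G q v v) * ‖v‖ ^ 2 :=
          mul_le_mul_of_nonneg_right h3 (by positivity)
      _ = G q v v := by field_simp

/-- On the torus `(ℝ/Lℤ)^κ`, for a suitable `L > 0` and every finite `κ` with at least `29`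
elements (that is, on the torus of every dimension `n ≥ 29`), there is a smooth vector field `f`
with a chain recurrent point `x` that for no Riemannian metric `G` of the torus belongs to the
Aubry set of `½ ‖v - f(x)‖²`. -/
theorem result : ∃ L : ℝ, 0 < L ∧ ∀ (κ : Type) [Fintype κ], 29 ≤ Fintype.card κ →
    ∃ (f : (κ → AddCircle L) → EuclideanSpace ℝ κ)
      (φ : ℝ → (κ → AddCircle L) → (κ → AddCircle L)),
      SmoothField L f ∧ IsFlow L f φ ∧ ∃ x, ChainRec L φ x ∧
        ∀ G, IsMetric L G → x ∉ AubrySetG L G f := by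
  obtain ⟨L, f, φ, hL, hs, hf, x, hx, hA⟩ := base
  refine ⟨L, hL, ?_⟩
  intro κ _ hκ
  obtain ⟨j⟩ : Nonempty (Pool.Agent.Aub.Jx ↪ κ) := by
    rw [Function.Embedding.nonempty_iff_card_le]
    exact le_trans (by simp) hκ
  let f' : (κ → AddCircle L) → EuclideanSpace ℝ κ := fun q => ex j (f (q ∘ j))
  let φ' : ℝ → (κ → AddCircle L) → (κ → AddCircle L) := fun t q => gl j (φ t (q ∘ j)) q
  have hφ'j : ∀ t q, φ' t q ∘ j = φ t (q ∘ j) := fun t q => gl_comp j _ _
  refine ⟨f', φ', ?_, ?_, gl j x 0, ?_, ?_⟩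
  · have h1 : (fun u => f' (proj L u)) = (exi j).toContinuousLinearMap ∘
        (fun u => f (proj L u)) ∘ (rsc j) := rfl
    unfold SmoothField
    rw [h1]
    exact (exi j).toContinuousLinearMap.contDiff.comp (hs.comp (rsc j).contDiff)
  · intro q
    obtain ⟨hc, hi⟩ := hf (q ∘ j)
    refine ⟨?_, ?_⟩
    · refine continuous_pi fun k => ?_
      by_cases hk : ∃ i, j i = k
      · obtain ⟨i, rfl⟩ := hk
        have : (fun t => φ' t q (j i)) = fun t => φ t (q ∘ j) i := by
          funext t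
          exact gl_apply j _ _ i
        rw [this]
        exact (continuous_apply i).comp hc
      · have : (fun t => φ' t q k) = fun _ => q k := by
          funext t
          exact gl_apply' j _ _ hk
        rw [this]
        exact continuous_const
    · intro t
      have h1 : ∫ s in (0 : ℝ)..t, f' (φ' s q) = ex j (∫ s in (0 : ℝ)..t, f (φ s (q ∘ j))) := by
        have h2 : (fun s => f' (φ' s q)) = fun s => (exi j) (f (φ s (q ∘ j))) := by
          funext s
          change ex j (f (φ' s q ∘ j)) = ex j (f (φ s (q ∘ j)))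
          rw [hφ'j]
        rw [h2]
        change _ = (exi j) _
        rw [intervalIntegral, intervalIntegral, map_sub, LinearIsometry.integral_comp_comm,
          LinearIsometry.integral_comp_comm]
      rw [h1]
      change gl j (φ t (q ∘ j)) q = _
      rw [hi t, gl_add_proj, gl_self]
  · intro ε hε T hT0
    have h2 : ∀ a b, chstep L φ ε T a b → chstep L φ' ε T (gl j a 0) (gl j b 0) := by
      rintro a b ⟨t, ht, u, hu, hb⟩
      refine ⟨t, ht, ex j u, by rwa [norm_ex], ?_⟩
      have h3 : φ' t (gl j a 0) = gl j (φ t a) 0 := by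
        change gl j (φ t (gl j a 0 ∘ j)) (gl j a 0) = _
        rw [gl_comp]
        funext k
        by_cases hk : ∃ i, j i = k
        · obtain ⟨i, rfl⟩ := hk
          rw [gl_apply, gl_apply]
        · rw [gl_apply' j _ _ hk, gl_apply' j _ _ hk, gl_apply' j _ _ hk]
      rw [h3, hb, gl_add_proj]
    exact (hx ε hε T hT0).lift (fun a => gl j a 0) h2
  · intro G hG hmem
    obtain ⟨c, hc, hcG⟩ := metric_ge hL hG
    apply hA
    have h0 : barrierG L G f' (gl j x 0) (gl j x 0) = 0 := hmem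
    -- comparison of the actions
    have hcmp : ∀ T : ℝ, ENNReal.ofReal c * hT L f T x x ≤
        hTG L G f' T (gl j x 0) (gl j x 0) := by
      intro T
      unfold hTG
      refine le_iInf fun γ => le_iInf fun v => le_iInf fun hcu => le_iInf fun h1 =>
        le_iInf fun h2 => ?_
      have hcur : IsCurve L (fun s => γ s ∘ j) (fun s => rs j (v s)) T := by
        refine ⟨(rsc j).integrable_comp hcu.1, fun s hs' => ?_⟩
        have h3 := hcu.2 s hs'
        have hvi : IntervalIntegrable v volume 0 s := by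
          rw [intervalIntegrable_iff_integrableOn_Icc_of_le hs'.1]
          exact hcu.1.mono_set (Icc_subset_Icc_right hs'.2)
        have h4 : ∫ u in (0 : ℝ)..s, rs j (v u) = rs j (∫ u in (0 : ℝ)..s, v u) :=
          (rsc j).intervalIntegral_comp_comm hvi
        change γ s ∘ j = γ 0 ∘ j + proj L (∫ u in (0 : ℝ)..s, rs j (v u))
        rw [h4, proj_rs, h3]
        rfl
      have hle : hT L f T x x ≤ action L f (fun s => γ s ∘ j) (fun s => rs j (v s)) T := by
        unfold hT
        refine iInf_le_of_le _ (iInf_le_of_le _ (iInf_le_of_le hcur (iInf_le_of_le ?_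
          (iInf_le_of_le ?_ le_rfl))))
        · rw [h1, gl_comp]
        · rw [h2, gl_comp]
      refine (mul_le_mul_right hle _).trans ?_
      unfold action actionG
      rw [← lintegral_const_mul' _ _ ENNReal.ofReal_ne_top]
      refine lintegral_mono fun s => ?_
      rw [← ENNReal.ofReal_mul hc.le]
      refine ENNReal.ofReal_le_ofReal ?_
      have h5 : rs j (v s) - f (γ s ∘ j) = rs j (v s - f' (γ s)) := by
        rw [map_sub]
        change _ = _ - rs j (ex j (f (γ s ∘ j)))
        rw [rs_ex]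
      have h6 : ‖rs j (v s) - f (γ s ∘ j)‖ ^ 2 ≤ ‖v s - f' (γ s)‖ ^ 2 := by
        rw [h5]
        exact pow_le_pow_left₀ (norm_nonneg _) (norm_rs_le j _) 2
      have h7 := hcG (γ s) (v s - f' (γ s))
      have h8 := mul_le_mul_of_nonneg_left h6 hc.le
      linarith
    change barrier L f x x = 0
    by_contra hne
    have hpos : 0 < barrier L f x x := pos_iff_ne_zero.2 hne
    obtain ⟨a, ha0, ha⟩ := exists_between hpos
    have hev : ∀ᶠ T : ℝ in atTop, a < hT L f T x x := eventually_lt_of_lt_liminf ha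
    have h1 : ENNReal.ofReal c * a ≤ barrierG L G f' (gl j x 0) (gl j x 0) := by
      unfold barrierG
      refine le_liminf_of_le (by isBoundedDefault) ?_
      filter_upwards [hev] with T hT1
      exact (mul_le_mul_right hT1.le _).trans (hcmp T)
    rw [h0] at h1
    have h2 : 0 < ENNReal.ofReal c * a :=
      ENNReal.mul_pos (ENNReal.ofReal_pos.2 hc).ne' ha0.ne'
    exact absurd h1 (not_le.2 h2)

end

end Pool.Agent.Results.MP_3afe9c_an.NoMetricEveryDimension
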